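import Pool.Agent.PSS.StmtsG

/-!
# Squad PSS, row CLN: from the clean hypotheses to the class
-/

set_option autoImplicit false

open scoped BigOperators

noncomputable section

namespace Pool.Agent.PSS.H44

open Pool.Agent.PSS
open Pool.Agent.Helper51_AWC Pool.Agent.Helper79_WRA Pool.Agent.PP Pool.Agent.PP.KF
open Pool.Agent.PP.K9 Pool.Agent.PP.K9.H97 Pool.Agent.PP.H75 Pool.Agent.PP.T3 Pool.Agent.PP.T2
open Pool.Agent.PP.TB (Zd Star iz cz)
open Pool.Agent.PFD (Ei)

attribute [local instance] Ideal.Quotient.field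

/-- the automorphisms of a stable subgroup -/
def resAut {V : Type} [Group V] (E : Subgroup (MulAut V)) (W : Subgroup V)
    (sW : ∀ a ∈ E, ∀ w ∈ W, a w ∈ W) : E →* MulAut W where
  toFun := fun a =>
    { toFun := fun w => ⟨(a : MulAut V) w, sW a a.2 w w.2⟩
      invFun := fun w => ⟨((a⁻¹ : E) : MulAut V) w, sW _ (a⁻¹).2 w w.2⟩
      left_inv := fun w => Subtype.ext (MulAut.inv_apply_self V (a : MulAut V) w)
      right_inv := fun w => Subtype.ext (MulAut.apply_inv_self V (a : MulAut V) w)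
      map_mul' := fun v w => Subtype.ext (map_mul (a : MulAut V) (v : V) w) }
  map_one' := by
    apply MulEquiv.ext
    intro w
    rfl
  map_mul' := by
    intro a b
    apply MulEquiv.ext
    intro w
    rfl

theorem resAut_apply {V : Type} [Group V] (E : Subgroup (MulAut V)) (W : Subgroup V)
    (sW : ∀ a ∈ E, ∀ w ∈ W, a w ∈ W) (a : E) (w : W) :
    ((resAut E W sW a w : W) : V) = (a : MulAut V) w := rfl

/-- EDF for a stable subgroup -/
theorem relEdf (edf : PFD.EdfStmt) {ℓ : ℕ} {V : Type} [Group V] [Finite V] (hℓ : ℓ.Prime)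
    (hV : IsPGroup ℓ V) (hab : ∀ a b : V, a * b = b * a) (E : Subgroup (MulAut V))
    (hE : ¬ ℓ ∣ Nat.card E) (U W : Subgroup V) (hUW : U ≤ W) (hU : U ≠ ⊥)
    (sU : ∀ a ∈ E, ∀ u ∈ U, a u ∈ U) (sW : ∀ a ∈ E, ∀ w ∈ W, a w ∈ W)
    (fr : ∀ a ∈ E, ∀ u ∈ U, u ≠ 1 → a u = u → ∀ w ∈ W, a w = w) :
    ∃ U' X' : Subgroup V, U' ⊓ X' = ⊥ ∧ U' ⊔ X' = W ∧ U' ≠ ⊥ ∧
      (∀ a ∈ E, ∀ u ∈ U', a u ∈ U') ∧ (∀ a ∈ E, ∀ x ∈ X', a x ∈ X') ∧
      ∀ a ∈ E, ∀ u ∈ U', u ≠ 1 → a u = u → ∀ w ∈ W, a w = w := by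
  let _ : CommGroup W :=
    { (inferInstance : Group W) with
      mul_comm := fun a b => Subtype.ext (hab a b) }
  have : Finite (MulAut V) := Finite.of_injective (fun f : MulAut V => (f : V → V))
    (fun f g h => MulEquiv.ext (congrFun h))
  have : Finite (MulAut W) := Finite.of_injective (fun f : MulAut W => (f : W → W))
    (fun f g h => MulEquiv.ext (congrFun h))
  have hcard : ¬ ℓ ∣ Nat.card (resAut E W sW).range := fun h =>
    hE (h.trans (Subgroup.card_dvd_of_surjective _ (resAut E W sW).rangeRestrict_surjective))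
  obtain ⟨U', X', h1, h2, h3, h4, h5⟩ := edf ℓ W (resAut E W sW).range
    (resAut E W sW).range.subtype hℓ (hV.to_subgroup W) hcard (U.subgroupOf W)
    (by
      intro h
      apply hU
      rw [eq_bot_iff]
      intro u hu
      have h6 : (⟨u, hUW hu⟩ : W) ∈ U.subgroupOf W := Subgroup.mem_subgroupOf.2 hu
      rw [h, Subgroup.mem_bot] at h6
      rw [Subgroup.mem_bot]
      exact congrArg Subtype.val h6)
    (by
      rintro ⟨_, ⟨a, rfl⟩⟩ u hu
      rw [Subgroup.mem_subgroupOf]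
      exact sU a a.2 u (Subgroup.mem_subgroupOf.1 hu))
    (by
      rintro ⟨_, ⟨a, rfl⟩⟩ u hu hfix
      have h7 : (a : MulAut V) (u : V) = u := congrArg Subtype.val hfix
      by_cases hu1 : u = 1
      · exact Or.inr hu1
      · left
        apply Subtype.ext
        apply MulEquiv.ext
        intro w
        apply Subtype.ext
        exact fr a a.2 u (Subgroup.mem_subgroupOf.1 hu) (fun h => hu1 (Subtype.ext h)) h7 w w.2)
  have hinj := W.subtype_injective
  refine ⟨U'.map W.subtype, X'.map W.subtype, ?_, ?_, ?_, ?_, ?_, ?_⟩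
  · rw [← Subgroup.map_inf_eq _ _ _ hinj, h2.inf_eq_bot, Subgroup.map_bot]
  · rw [← Subgroup.map_sup, h2.sup_eq_top, ← MonoidHom.range_eq_map, W.range_subtype]
  · intro h
    exact h1 ((Subgroup.map_eq_bot_iff_of_injective _ hinj).1 h)
  · rintro a ha _ ⟨u, hu, rfl⟩
    exact ⟨_, h3 ⟨resAut E W sW ⟨a, ha⟩, ⟨_, rfl⟩⟩ u hu, rfl⟩
  · rintro a ha _ ⟨u, hu, rfl⟩
    exact ⟨_, h4 ⟨resAut E W sW ⟨a, ha⟩, ⟨_, rfl⟩⟩ u hu, rfl⟩
  · rintro a ha _ ⟨u, hu, rfl⟩ hu1 hfix w hw
    have h6 : (⟨resAut E W sW ⟨a, ha⟩, ⟨_, rfl⟩⟩ : (resAut E W sW).range) = 1 ∨ u = 1 := by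
      apply h5 _ u hu
      apply Subtype.ext
      exact hfix
    rcases h6 with h6 | h6
    · have h7 := congrArg (fun f : (resAut E W sW).range => (((f : MulAut W) ⟨w, hw⟩ : W) : V)) h6
      exact h7
    · exact absurd (by rw [h6]; rfl) hu1

theorem cln (cyq : CyqStmt) (edf : PFD.EdfStmt) (lke : PFD.LkeStmt) (inx : K9.InxStmt) :
    ClnStmt := by
  intro ℓ hℓ M _ hM G _ _ e V γ hL hV s Y W U h
  have hT : Tg V γ ≤ Subgroup.normalizer (V : Set G) := inf_le_left
  have hab : ∀ a b : V, a * b = b * a := fun a b => Subtype.ext (hL.ab a a.2 b b.2)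
  -- the order of `Ei`
  have hcop : ¬ ℓ ∣ Nat.card (Ei V γ) := by
    have h1 := (lke ℓ (FF M) G e V γ hL).1
    rw [← h1]
    have h2 := inx ℓ M hM G e hL.blk V hL.tp hL.ab γ hL.gam.supp hL.gam.blk hL.und
    have h3 : iz V V γ = (Subgroup.centralizer (V : Set G)).relIndex
        (Subgroup.normalizer (V : Set G) ⊓ stabF γ) := by
      unfold iz
      rw [Subgroup.inf_relIndex_right]
      rfl
    rw [h3]
    exact h2
  -- stable subgroups
  have hst : ∀ Z : Subgroup G, (∀ t ∈ Tg V γ, ∀ z ∈ Z, t * z * t⁻¹ ∈ Z) →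
      ∀ a ∈ Ei V γ, ∀ z ∈ Z.subgroupOf V, a z ∈ Z.subgroupOf V := by
    rintro Z hZ _ ⟨⟨t, htn⟩, ht, rfl⟩ z hz
    rw [Subgroup.mem_subgroupOf]
    exact hZ t (Subgroup.mem_subgroupOf.1 ht) z (Subgroup.mem_subgroupOf.1 hz)
  have hYV : ∀ i, Y i ≤ V := fun i => (le_iSup Y i).trans (le_sup_left.trans h.jn.le)
  have hWV : W ≤ V := le_sup_right.trans h.jn.le
  -- the product of the cyclic subgroups
  have hD : ∀ n : ℕ, n ≤ s →
      Cyc (Ei V γ) ((⨆ j : Fin s, ⨆ (_ : (j : ℕ) < n), Y j).subgroupOf V) := by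
    intro n
    induction n with
    | zero =>
      intro _
      have h0 : (⨆ j : Fin s, ⨆ (_ : (j : ℕ) < 0), Y j) = ⊥ := by
        rw [eq_bot_iff]
        refine iSup_le fun j => iSup_le fun hj => ?_
        omega
      rw [h0, Subgroup.bot_subgroupOf]
      exact Cyc.bot
    | succ n ih =>
      intro hn
      have h0 : (⨆ j : Fin s, ⨆ (_ : (j : ℕ) < n + 1), Y j) =
          (⨆ j : Fin s, ⨆ (_ : (j : ℕ) < n), Y j) ⊔ Y ⟨n, hn⟩ := by
        apply le_antisymm
        · refine iSup_le fun j => iSup_le fun hj => ?_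
          rcases Nat.lt_or_ge (j : ℕ) n with h1 | h1
          · exact (le_iSup₂ (f := fun (j : Fin s) (_ : (j : ℕ) < n) => Y j) j h1).trans le_sup_left
          · have h2 : j = ⟨n, hn⟩ := Fin.ext (by show (j : ℕ) = n; omega)
            rw [h2]
            exact le_sup_right
        · refine sup_le ?_ ?_
          · refine iSup_le fun j => iSup_le fun hj => ?_
            exact le_iSup₂_of_le j (Nat.lt_succ_of_lt hj) le_rfl
          · exact le_iSup₂_of_le (⟨n, hn⟩ : Fin s) (Nat.lt_succ_self n) le_rfl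
      have hle : (⨆ j : Fin s, ⨆ (_ : (j : ℕ) < n), Y j) ≤ V :=
        iSup_le fun j => iSup_le fun _ => hYV j
      rw [h0, Subgroup.subgroupOf_sup hle (hYV _)]
      refine Cyc.mul _ _ (ih (by omega)) ?_ ?_ ?_
      · obtain ⟨y, hy, hy'⟩ := h.cy ⟨n, hn⟩
        refine ⟨⟨y, hYV _ hy⟩, Subgroup.mem_subgroupOf.2 hy, ?_⟩
        intro x hx
        obtain ⟨k, hk⟩ := hy' x (Subgroup.mem_subgroupOf.1 hx)
        exact ⟨k, Subtype.ext hk⟩
      · exact hst _ (h.sy ⟨n, hn⟩)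
      · rw [eq_bot_iff]
        rintro ⟨x, hxV⟩ ⟨hx1, hx2⟩
        have h3 : x ∈ Y ⟨n, hn⟩ ⊓ (⨆ j, ⨆ (_ : j < (⟨n, hn⟩ : Fin s)), Y j) :=
          ⟨Subgroup.mem_subgroupOf.1 hx2, Subgroup.mem_subgroupOf.1 hx1⟩
        rw [h.dy, Subgroup.mem_bot] at h3
        rw [Subgroup.mem_bot]
        exact Subtype.ext h3
  have hC : Cyc (Ei V γ) ((⨆ i, Y i).subgroupOf V) := by
    have h1 := hD s le_rfl
    have h2 : (⨆ j : Fin s, ⨆ (_ : (j : ℕ) < s), Y j) = ⨆ i, Y i := by
      apply le_antisymm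
      · exact iSup_le fun j => iSup_le fun _ => le_iSup Y j
      · exact iSup_le fun j => le_iSup₂_of_le j j.2 le_rfl
    rw [h2] at h1
    exact h1
  have hCV : (⨆ i, Y i) ≤ V := iSup_le hYV
  by_cases hW : W = ⊥
  · -- `W = 1`
    have htop : (⨆ i, Y i).subgroupOf V = ⊤ := by
      rw [Subgroup.subgroupOf_eq_top]
      have h1 := h.jn
      rw [hW, sup_bot_eq] at h1
      exact h1.ge
    rw [htop] at hC
    have hne : (⊤ : Subgroup V) ≠ ⊥ := by
      intro h1
      apply hV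
      rw [eq_bot_iff]
      intro x hx
      have h2 : (⟨x, hx⟩ : V) ∈ (⊤ : Subgroup V) := trivial
      rw [h1, Subgroup.mem_bot] at h2
      rw [Subgroup.mem_bot]
      exact congrArg Subtype.val h2
    obtain ⟨C₁, Y₁, c1, c2, c3, c4, c5, c6⟩ := cyq.2 ℓ V (Ei V γ) Fact.out hL.tp.1 hcop hab ⊤ hC hne
    exact ⟨Y₁, C₁, Y₁, ⊥,
      { ab := hab
        cy := c1
        cw := c2
        jn := c3
        ux := inf_bot_eq _
        uw := sup_bot_eq _
        nt := c4
        su := c5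
        sx := by
          intro a _ x hx
          rw [Subgroup.mem_bot] at hx ⊢
          rw [hx, map_one]
        fr := c6 }⟩
  · have hU : U ≠ ⊥ := fun h1 => hW (h.nt h1)
    have hUV : U ≤ V := h.uw.trans hWV
    obtain ⟨U', X', x1, x2, x3, x4, x5, x6⟩ := relEdf edf Fact.out hL.tp.1 hab (Ei V γ) hcop
      (U.subgroupOf V) (W.subgroupOf V)
      (fun u hu => Subgroup.mem_subgroupOf.2 (h.uw (Subgroup.mem_subgroupOf.1 hu)))
      (by
        intro h1
        apply hU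
        rw [eq_bot_iff]
        intro u hu
        have h6 : (⟨u, hUV hu⟩ : V) ∈ U.subgroupOf V := Subgroup.mem_subgroupOf.2 hu
        rw [h1, Subgroup.mem_bot] at h6
        rw [Subgroup.mem_bot]
        exact congrArg Subtype.val h6)
      (hst U h.su) (hst W h.sw)
      (by
        rintro _ ⟨⟨t, htn⟩, ht, rfl⟩ u hu hu1 hfix w hw
        have h7 : t * (u : G) * t⁻¹ = u := congrArg Subtype.val hfix
        have h8 := h.fr t (Subgroup.mem_subgroupOf.1 ht) u (Subgroup.mem_subgroupOf.1 hu)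
          (fun h => hu1 (Subtype.ext h)) (mul_inv_eq_iff_eq_mul.1 h7)
        apply Subtype.ext
        show t * (w : G) * t⁻¹ = w
        have h9 : (w : G) * t = t * w :=
          (Subgroup.mem_centralizer_iff.1 h8) w (Subgroup.mem_subgroupOf.1 hw)
        rw [← h9, mul_inv_cancel_right])
    refine ⟨W.subgroupOf V, (⨆ i, Y i).subgroupOf V, U', X',
      { ab := hab
        cy := hC
        cw := ?_
        jn := ?_
        ux := x1
        uw := x2
        nt := x3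
        su := x4
        sx := x5
        fr := x6 }⟩
    · rw [eq_bot_iff]
      rintro ⟨x, hxV⟩ ⟨hx1, hx2⟩
      have h3 : x ∈ (⨆ i, Y i) ⊓ W := ⟨Subgroup.mem_subgroupOf.1 hx1, Subgroup.mem_subgroupOf.1 hx2⟩
      rw [h.dw, Subgroup.mem_bot] at h3
      rw [Subgroup.mem_bot]
      exact Subtype.ext h3
    · rw [← Subgroup.subgroupOf_sup hCV hWV, h.jn, Subgroup.subgroupOf_self]

end Pool.Agent.PSS.H44
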