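import Pool.Agent.PSS.StmtsBR

/-! Squad PSS (MP_6a3f1a_al), row SNL (helper44): elements fixed by `V1` are traces. -/

set_option autoImplicit false

open scoped BigOperators

noncomputable section

namespace Pool.Agent.PSS.BR.H44

open Pool.Agent.PSS

theorem sum_cos {G W : Type} [Group G] [Group W] [Fintype W] (ι : W →* G)
    (hι : Function.Injective ι) [Fintype G] [Fintype (G ⧸ ι.range)]
    {N : Type} [AddCommMonoid N] (f : G → N) :
    ∑ q : G ⧸ ι.range, ∑ w : W, f (q.out * ι w) = ∑ g, f g := by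
  rw [← Fintype.sum_prod_type']
  refine Fintype.sum_bijective (fun x : (G ⧸ ι.range) × W => x.1.out * ι x.2) ?_ _ _
    fun x => rfl
  have hmk : ∀ x : (G ⧸ ι.range) × W, ((x.1.out * ι x.2 : G) : G ⧸ ι.range) = x.1 := by
    intro x
    rw [QuotientGroup.mk_mul_of_mem _ (⟨x.2, rfl⟩ : ι x.2 ∈ ι.range)]
    exact QuotientGroup.out_eq' _
  constructor
  · intro x y hxy
    have h1 : x.1 = y.1 := by
      rw [← hmk x, ← hmk y]
      exact congrArg _ hxy
    have h2 : x.2 = y.2 := by
      apply hι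
      have h3 : x.1.out * ι x.2 = y.1.out * ι y.2 := hxy
      rw [h1] at h3
      exact mul_left_cancel h3
    exact Prod.ext h1 h2
  · intro g
    have h1 : ((g : G ⧸ ι.range).out)⁻¹ * g ∈ ι.range := by
      rw [← QuotientGroup.eq]
      exact QuotientGroup.out_eq' _
    obtain ⟨w, hw⟩ := h1
    refine ⟨((g : G ⧸ ι.range), w), ?_⟩
    change (g : G ⧸ ι.range).out * ι w = g
    rw [hw, mul_inv_cancel_left]

theorem snl : SnlStmt := by
  intro F V V1 B K _ _ _ _ _ _ _ _ α i lam x y hi hRF b hb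
  classical
  have := Fintype.ofFinite (V ⧸ i.range)
  obtain ⟨g, hg⟩ : ∃ g : V → B, g = fun v =>
      ∑ k, lam (b * (x k * α v)) • (α v⁻¹ * y k) := ⟨_, rfl⟩
  have hgv : ∀ v, g v = ∑ k, lam (b * (x k * α v)) • (α v⁻¹ * y k) := fun v => by rw [hg]
  have hbs : b = ∑ v, g v := by
    have h1 := hRF.e2 b
    rw [Finset.sum_comm] at h1
    rw [hg]
    exact h1.symm
  have hgu : ∀ (v : V) (u : V1), g (v * i u) = α (i u⁻¹) * g v := by
    intro v u
    rw [hgv, hgv, Finset.mul_sum]
    refine Finset.sum_congr rfl fun k _ => ?_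
    have e1 : lam (b * (x k * α (v * i u))) = lam (b * (x k * α v)) := by
      have e2 : b * (x k * α (v * i u)) = b * (x k * α v) * α (i u) := by
        rw [map_mul]
        simp only [mul_assoc]
      rw [e2, hRF.sym, ← mul_assoc, hb]
    have e3 : α (v * i u)⁻¹ * y k = α (i u⁻¹) * (α v⁻¹ * y k) := by
      rw [mul_inv_rev, map_mul, mul_assoc, map_inv i]
    rw [e1, e3, mul_smul_comm]
  refine ⟨∑ q : V ⧸ i.range, g q.out, ?_⟩
  conv_lhs => rw [hbs]
  rw [← sum_cos i hi g]
  have h1 : ∀ q : V ⧸ i.range, ∑ w : V1, g (q.out * i w) = ∑ w : V1, α (i w) * g q.out := by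
    intro q
    rw [Finset.sum_congr rfl fun w _ => hgu q.out w]
    exact Fintype.sum_equiv (Equiv.inv V1) _ _ fun w => rfl
  rw [Finset.sum_congr rfl fun q _ => h1 q, Finset.sum_comm]
  refine Finset.sum_congr rfl fun w _ => ?_
  rw [Finset.mul_sum]

end Pool.Agent.PSS.BR.H44
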