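import Pool.Agent.PSS.StmtsS5

/-! Squad PSS (MP_6a3f1a_al), row NAK (helper44): Nakayama's lemma for an `ℓ`-group in
characteristic `ℓ`. -/

set_option autoImplicit false

open scoped BigOperators

noncomputable section

namespace Pool.Agent.PSS.S5.H44

section gen

variable {F V M : Type} [Field F] [CommGroup V] [AddCommGroup M] [Module F M]
  (ρ : V →* (M →ₗ[F] M))

/-- the algebra homomorphism of the group algebra -/
def ph : MonoidAlgebra F V →ₐ[F] (M →ₗ[F] M) := MonoidAlgebra.lift F (M →ₗ[F] M) V ρ

theorem ph_of (v : V) : ph ρ (MonoidAlgebra.of F V v) = ρ v := by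
  unfold ph
  exact MonoidAlgebra.lift_of _ _

theorem ph_mem {D : Submodule F M} (hD : ∀ v, ∀ m ∈ D, ρ v m ∈ D) (r : MonoidAlgebra F V) :
    ∀ m ∈ D, ph ρ r m ∈ D := by
  intro m hm
  induction r using MonoidAlgebra.induction_on with
  | of v =>
    rw [ph_of]
    exact hD v m hm
  | add x y hx hy =>
    rw [map_add, LinearMap.add_apply]
    exact Submodule.add_mem _ hx hy
  | smul c x hx =>
    rw [map_smul, LinearMap.smul_apply]
    exact Submodule.smul_mem _ _ hx

/-- the augmentation ideal -/
def aug (F V : Type) [Field F] [CommGroup V] : Ideal (MonoidAlgebra F V) :=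
  Ideal.span (Set.range fun v : V => MonoidAlgebra.of F V v - 1)

theorem aug_nil (ℓ : ℕ) [Fact ℓ.Prime] [CharP F ℓ] [Finite V] (hV : IsPGroup ℓ V) :
    IsNilpotent (aug F V) := by
  have hc : CharP (MonoidAlgebra F V) ℓ :=
    charP_of_injective_algebraMap (algebraMap F (MonoidAlgebra F V)).injective ℓ
  have hfg : (aug F V).FG := Submodule.fg_span (Set.finite_range _)
  rw [Ideal.FG.isNilpotent_iff_le_nilradical hfg]
  unfold aug
  rw [Ideal.span_le]
  rintro _ ⟨v, rfl⟩
  obtain ⟨n, hn⟩ := hV v
  change MonoidAlgebra.of F V v - 1 ∈ nilradical (MonoidAlgebra F V)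
  rw [mem_nilradical]
  refine ⟨ℓ ^ n, ?_⟩
  rw [sub_pow_char_pow, ← map_pow, hn, map_one, one_pow, sub_self]

end gen

theorem nak : NakStmt := by
  intro ℓ _ F V M _ _ _ _ _ _ ρ D D' hV hD hD' h
  have key : ∀ k : ℕ, D ≤ D' ⊔ Submodule.span F {x : M | ∃ r ∈ (aug F V) ^ k, ∃ d ∈ D,
      x = ph ρ r d} := by
    intro k
    induction k with
    | zero =>
      intro m hm
      refine Submodule.mem_sup_right (Submodule.subset_span ⟨1, ?_, m, hm, ?_⟩)
      · rw [pow_zero, Ideal.one_eq_top]
        exact Submodule.mem_top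
      · rw [map_one]
        rfl
    | succ k ih =>
      refine ih.trans (sup_le le_sup_left ?_)
      rw [Submodule.span_le]
      rintro _ ⟨r, hr, d, hd, rfl⟩
      obtain ⟨m', hm', hs⟩ := h d hd
      have e : ph ρ r d = ph ρ r m' + ph ρ r (d - m') := by
        rw [← map_add]
        congr 1
        abel
      rw [e]
      refine Submodule.add_mem _ (Submodule.mem_sup_left (ph_mem ρ hD' r m' hm')) ?_
      refine Submodule.mem_sup_right ?_
      have h2 : ∀ y ∈ Submodule.span F {x : M | ∃ v, ∃ d ∈ D, x = ρ v d - d},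
          ph ρ r y ∈ Submodule.span F {x : M | ∃ r ∈ (aug F V) ^ (k + 1), ∃ d ∈ D,
            x = ph ρ r d} := by
        intro y hy
        induction hy using Submodule.span_induction with
        | mem x hx =>
          obtain ⟨v, d', hd', rfl⟩ := hx
          refine Submodule.subset_span ⟨r * (MonoidAlgebra.of F V v - 1), ?_, d', hd', ?_⟩
          · rw [pow_succ]
            exact Ideal.mul_mem_mul hr (Ideal.subset_span ⟨v, rfl⟩)
          · have h0 : ph ρ (MonoidAlgebra.of F V v - 1) = ρ v - 1 := by
              rw [map_sub, ph_of]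
              exact congrArg _ (map_one (ph ρ))
            rw [map_mul, h0]
            rfl
        | zero =>
          rw [map_zero]
          exact Submodule.zero_mem _
        | add x y _ _ h1 h2 =>
          rw [map_add]
          exact Submodule.add_mem _ h1 h2
        | smul c x _ h1 =>
          rw [map_smul]
          exact Submodule.smul_mem _ _ h1
      have h3 : d - m' ∈ Submodule.span F {x : M | ∃ v, ∃ d ∈ D, x = ρ v d - d} := hs
      exact h2 _ h3
  obtain ⟨n, hn⟩ := aug_nil (F := F) ℓ hV
  intro m hm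
  have h1 := key n hm
  have h2 : Submodule.span F {x : M | ∃ r ∈ (aug F V) ^ n, ∃ d ∈ D, x = ph ρ r d} = ⊥ := by
    rw [Submodule.span_eq_bot]
    rintro _ ⟨r, hr, d, _, rfl⟩
    rw [hn] at hr
    have hr0 : r = 0 := hr
    rw [hr0, map_zero]
    rfl
  rw [h2, sup_bot_eq] at h1
  exact h1

end Pool.Agent.PSS.S5.H44
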