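import Pool.Agent.PSS.StmtsOB
import Pool.Agent.Helper7_PSS.TLF

/-! Squad PSS (MP_6a3f1a_al), row TGW (helper44): the deformation with given first order term. -/

set_option autoImplicit false

open scoped BigOperators TensorProduct

noncomputable section

namespace Pool.Agent.PSS.H44

open Finset

theorem tgw (hTRX : TrxStmt) (hTRA : TraStmt) (hTRC : TrcStmt) (hLIM : LimStmt)
    (hSTW : StwStmt) (hBIA : BiaStmt) : TgwStmt := by
  intro R K V E A B κ Ω _ _ _ _ _ _ _ _ _ _ _ _ _ _ _ φ W α lam x y b c C u hz hst hu g hg hg1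
    hgd key
  -- start
  let P₀ : ℕ → (B →ₗ[K] B) := fun n => if n = 0 then LinearMap.id else if n = 1 then g else 0
  obtain ⟨m₀, hm₀⟩ := hTRX K V B (ia C.i α) W P₀ rfl
    (by
      intro n
      rcases n with _ | _ | n
      · intro w _ x; simp [P₀]
      · exact hg
      · intro w _ x; simp [P₀])
    (by
      intro n
      rcases n with _ | n
      · exact hg1
      · simp [P₀])
  obtain ⟨⟨D, hD⟩, -, -⟩ := hTRA K V B (ia C.i α) W P₀ m₀ hm₀
  have hm0 : ∀ x y, m₀ 0 x y = x * y := by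
    intro x y
    rw [← hD]
    exact D.m0 x y
  have hm1 : ∀ x y, m₀ 1 x y = d1 g x y := by
    intro x y
    have h := hm₀.pm 1 x y
    have ha : antidiagonal 1 = {((0 : ℕ), 1), (1, 0)} := rfl
    rw [ha, sum_pair (by decide), sum_pair (by decide)] at h
    simp only [P₀, if_true, one_ne_zero, if_false, LinearMap.id_coe, id_eq] at h
    rw [hm0] at h
    rw [d1]
    rw [sub_add_eq_add_sub, h]
    abel
  obtain ⟨P, m, hT, hP, hI⟩ := H7.limTrv (β := ia C.i α) (W := W)
    (I := fun n μ => (∀ a₁ a₂, In C.i (μ (C.i a₁) (C.i a₂))) ∧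
      (n = 1 → ∀ x y, μ x y = d1 g x y)) hTRX hTRC hLIM 1
    (fun n => (P₀ n, m₀ n))
    { p0 := hm₀.p0
      pw := fun n _ => hm₀.pw n
      p1 := fun n _ => hm₀.p1 n
      pm := fun n _ x y => hm₀.pm n x y
      int := fun n hn => by
        rcases n with _ | n
        · refine ⟨fun a₁ a₂ => ⟨a₁ * a₂, ?_⟩, fun h => absurd h (by decide)⟩
          change C.i (a₁ * a₂) = m₀ 0 (C.i a₁) (C.i a₂)
          rw [hm0, map_mul]
        · obtain rfl : n = 0 := by omega
          refine ⟨fun a₁ a₂ => ?_, fun _ => hm1⟩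
          change In C.i (m₀ 1 (C.i a₁) (C.i a₂))
          rw [hm1]
          exact hgd a₁ a₂ }
    (by
      intro P m N hN hT hI
      obtain ⟨hz2, hbi, -⟩ := hBIA R K V A B κ Ω W α lam x y b c C P m N hT
        (fun n hn => (hI n hn).1)
      have hfz : Fz C (m (N + 1)) := key (m 1) (m (N + 1)) ((hI 1 hN).2 rfl) hz2 (hbi hN)
      obtain ⟨P', m', hT', hP', hI'⟩ := hSTW R K V E A B κ Ω φ W α lam x y b c C u hz hst hu P m N
        hT (fun n hn => (hI n hn).1) hfz
      have hmm := (hTRC K V B (ia C.i α) W P P' m m' N hT hT' hP').1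
      refine ⟨P', m', hT', hP', fun n hn => ⟨hI' n hn, fun h1 => ?_⟩⟩
      subst h1
      rw [hmm 1 hN]
      exact (hI 1 hN).2 rfl)
  refine ⟨P, m, hT, ?_, fun n => (hI n).1⟩
  rw [hP 1 le_rfl]
  rfl

end Pool.Agent.PSS.H44
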