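import Pool.Agent.PSS.StmtsS6
import Pool.Agent.Helper9_PFC.FFA

/-! Squad PSS (MP_6a3f1a_al), row RFG (helper44): the relative Frobenius system of the corner. -/

set_option autoImplicit false

open scoped BigOperators

set_option linter.unusedSectionVars false

noncomputable section

namespace Pool.Agent.PSS.H44R

open Pool.Agent.Helper51_AWC Pool.Agent.Helper79_WRA Pool.Agent.PP Pool.Agent.PP.KF
open Pool.Agent.PP.K9 Pool.Agent.PP.K9.H97 Pool.Agent.PP.H75 Pool.Agent.PP.T3 Pool.Agent.PP.T2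
open Pool.Agent.PFC (Jd Crn jal Cz cv mkj cv_mul cv_mkj cv_inj cv_l cv_r cv_jal dl_mul dl_comm)

section gen

variable {F G : Type} [Field F] [Group G] [Finite G]

theorem cj_eq (x : G) (a : G → F) :
    cj x a = mulF (mulF (dl F x) a) (dl F x⁻¹) := by
  rw [PFC.mulF_dl_r, PFC.mulF_dl_l]
  funext y
  rw [cj, inv_inv]
  congr 1
  group

variable {j : G → F} (hj : mulF j j = j)

theorem lam_mkj (g : G) (a : Crn hj) : PFC.H9F.lam1 hj (mkj hj (dl F g) * a) = cv a g⁻¹ := by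
  rw [PFC.H9F.lam1_apply, cv_mul, cv_mkj, H20.mulF_assoc, H20.mulF_assoc, cv_l,
    PFC.H9F.mulF_one_comm, H20.mulF_assoc, cv_r, PFC.mulF_dl_l]
  change cv a (g⁻¹ * 1) = _
  rw [mul_one]

theorem mulF_one (a b : G → F) [Fintype G] : mulF a b 1 = ∑ g, a g * b g⁻¹ := by
  unfold mulF
  rw [finsum_eq_sum_of_fintype]
  refine Finset.sum_congr rfl fun g _ => ?_
  rw [mul_one]

theorem sum_mkj [Fintype G] (a : Crn hj) : ∑ g, cv a g • mkj hj (dl F g) = a := by
  rw [← sub_eq_zero]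
  refine PFC.H9F.lam1_nd hj _ fun b => ?_
  rw [sub_mul, map_sub, Finset.sum_mul, map_sum, PFC.H9F.lam1_apply hj (a * b), cv_mul,
    mulF_one, sub_eq_zero]
  refine Finset.sum_congr rfl fun g _ => ?_
  rw [smul_mul_assoc, map_smul, lam_mkj, smul_eq_mul]

variable {W : Type} [CommGroup W] [Fintype W] (ι : W →* G)
  (hv : ∀ w x, j (ι w * x * (ι w)⁻¹) = j x)

theorem mkj_jal (g : G) (w : W) :
    mkj hj (dl F g) * jal hj ι hv w = mkj hj (dl F (g * ι w)) := by
  apply cv_inj hj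
  rw [cv_mul, cv_mkj, cv_mkj, cv_jal, ← dl_mul, H20.mulF_assoc, H20.mulF_assoc, H20.mulF_assoc,
    ← H20.mulF_assoc j (dl F (ι w)), ← dl_comm (hv w), H20.mulF_assoc (dl F (ι w)), hj]

theorem jal_mkj (g : G) (w : W) :
    jal hj ι hv w * mkj hj (dl F g) = mkj hj (dl F (ι w * g)) := by
  apply cv_inj hj
  rw [cv_mul, cv_mkj, cv_mkj, cv_jal, ← dl_mul, H20.mulF_assoc, ← H20.mulF_assoc j j, hj,
    ← H20.mulF_assoc (dl F (ι w)), dl_comm (hv w), H20.mulF_assoc, H20.mulF_assoc]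

theorem sum_cos (hι : Function.Injective ι) [Fintype G] [Fintype (G ⧸ ι.range)]
    {N : Type} [AddCommMonoid N] (f : G → N) :
    ∑ q : G ⧸ ι.range, ∑ w : W, f (q.out * ι w) = ∑ g, f g := by
  rw [← Fintype.sum_prod_type']
  refine Fintype.sum_bijective (fun x : (G ⧸ ι.range) × W => x.1.out * ι x.2) ?_ _ _
    fun x => rfl
  have hmk : ∀ x : (G ⧸ ι.range) × W, ((x.1.out * ι x.2 : G) : G ⧸ ι.range) = x.1 := by
    intro x
    rw [QuotientGroup.mk_mul_of_mem _ (⟨x.2, rfl⟩ : ι x.2 ∈ ι.range)]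
    exact QuotientGroup.out_eq' _
  constructor
  · intro x y hxy
    have h1 : x.1 = y.1 := by
      rw [← hmk x, ← hmk y]
      exact congrArg _ hxy
    have h2 : x.2 = y.2 := by
      apply hι
      have h3 : x.1.out * ι x.2 = y.1.out * ι y.2 := hxy
      rw [h1] at h3
      exact mul_left_cancel h3
    exact Prod.ext h1 h2
  · intro g
    have h1 : ((g : G ⧸ ι.range).out)⁻¹ * g ∈ ι.range := by
      rw [← QuotientGroup.eq]
      exact QuotientGroup.out_eq' _
    obtain ⟨w, hw⟩ := h1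
    refine ⟨((g : G ⧸ ι.range), w), ?_⟩
    change (g : G ⧸ ι.range).out * ι w = g
    rw [hw, mul_inv_cancel_left]

end gen

theorem rfg : RfgStmt := by
  intro F _ G W _ _ _ _ ι hι j hj hv
  classical
  have := Fintype.ofFinite G
  have := Fintype.ofFinite (G ⧸ ι.range)
  refine ⟨PFC.H9F.lam1 hj, G ⧸ ι.range, inferInstance, fun q => mkj hj (dl F q.out),
    fun q => mkj hj (dl F (q.out)⁻¹), ⟨PFC.H9F.lam1_sym hj, ?_, ?_⟩, ?_⟩
  · intro a
    have h1 : ∀ (q : G ⧸ ι.range) (w : W), PFC.H9F.lam1 hj (jal hj ι hv w⁻¹ *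
        mkj hj (dl F (q.out)⁻¹) * a) • (mkj hj (dl F q.out) * jal hj ι hv w) =
        cv a (q.out * ι w) • mkj hj (dl F (q.out * ι w)) := by
      intro q w
      rw [jal_mkj, mkj_jal, lam_mkj]
      congr 2
      rw [map_inv]
      group
    rw [Finset.sum_congr rfl fun q _ => Finset.sum_congr rfl fun w _ => h1 q w,
      sum_cos ι hι (fun g => cv a g • mkj hj (dl F g)), sum_mkj]
  · intro a
    have h1 : ∀ (q : G ⧸ ι.range) (w : W), PFC.H9F.lam1 hj (a * (mkj hj (dl F q.out) *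
        jal hj ι hv w)) • (jal hj ι hv w⁻¹ * mkj hj (dl F (q.out)⁻¹)) =
        cv a (q.out * ι w)⁻¹ • mkj hj (dl F (q.out * ι w)⁻¹) := by
      intro q w
      rw [jal_mkj, mkj_jal, PFC.H9F.lam1_sym, lam_mkj]
      congr 2
      congr 1
      rw [map_inv]
      group
    rw [Finset.sum_congr rfl fun q _ => Finset.sum_congr rfl fun w _ => h1 q w,
      sum_cos ι hι (fun g => cv a g⁻¹ • mkj hj (dl F g⁻¹))]
    rw [Fintype.sum_equiv (Equiv.inv G) (fun g => cv a g⁻¹ • mkj hj (dl F g⁻¹))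
      (fun g => cv a g • mkj hj (dl F g)) fun g => rfl]
    exact sum_mkj hj a
  · have hcl : IsCl (tsm ι.range j) := by
      apply tsm_cl
      rintro _ ⟨w, rfl⟩
      exact (cj_eq_iff (ι w) j).2 (hv w)
    have h1 : tsm ι.range j = ∑ q : G ⧸ ι.range, cj q.out j := by
      funext g
      unfold tsm
      rw [finsum_eq_sum_of_fintype, Finset.sum_apply]
    have h2 : ∀ q : G ⧸ ι.range, cv (mkj hj (dl F q.out) * mkj hj (dl F (q.out)⁻¹)) =
        cv (mkj hj (cj q.out j)) := by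
      intro q
      rw [cv_mul, cv_mkj, cv_mkj, cv_mkj, cj_eq]
      simp only [H20.mulF_assoc]
      rw [← H20.mulF_assoc j j, hj]
    have h3 : ∀ s : Finset (G ⧸ ι.range), cv (∑ q ∈ s, mkj hj (cj q.out j)) =
        cv (mkj hj (∑ q ∈ s, cj q.out j)) := by
      intro s
      induction s using Finset.induction_on with
      | empty =>
        rw [Finset.sum_empty, Finset.sum_empty, cv_mkj, H20.zero_mulF, H20.mulF_zero]
        exact PFC.cv_zero hj
      | insert a s ha ih =>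
        rw [Finset.sum_insert ha, Finset.sum_insert ha, PFC.cv_add, ih, cv_mkj, cv_mkj, cv_mkj,
          H20.add_mulF, H20.mulF_add]
    rw [PFC.H9F.cv_sum, Finset.sum_congr rfl fun q _ => h2 q, ← PFC.H9F.cv_sum, h3, ← h1, cv_mkj,
      mulF_comm_cl hcl, ← H20.mulF_assoc, hj]

end Pool.Agent.PSS.H44R
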